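import Mathlib
import Pool.Agent.S07067

set_option autoImplicit false

namespace Pool.Agent.Results.MP_e3cf1a_co.QuadraticOrder

open Finset Classical Pool.Agent.S07067

/-- The 3-uniform expansion of a graph `G`: the vertices are those of `G` together with one new
vertex for every edge of `G`; the edges are the triples formed by the two ends of an edge of `G`
and the new vertex of that edge. -/
def expansion {V : Type} (G : SimpleGraph V) : Set (Finset (V ⊕ G.edgeSet)) :=
  {t | ∃ (u v : V) (h : G.Adj u v),
    t = {Sum.inl u, Sum.inl v, Sum.inr ⟨s(u, v), (SimpleGraph.mem_edgeSet G).mpr h⟩}}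

/-- A crosscut: a set of vertices that meets every edge in exactly one vertex. -/
def IsCrosscut {W : Type} (F : Set (Finset W)) (X : Finset W) : Prop :=
  ∀ e ∈ F, (e ∩ X).card = 1

/-- The crosscut number: the least size of a crosscut. -/
noncomputable def sigma {W : Type} (F : Set (Finset W)) : ℕ :=
  sInf {k | ∃ X : Finset W, IsCrosscut F X ∧ X.card = k}

/-- `H` contains a (not necessarily induced) copy of `F`. -/
def HasCopy {n : ℕ} {W : Type} (F : Set (Finset W)) (H : Finset (Finset (Fin n))) : Prop :=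
  ∃ f : W → Fin n, Function.Injective f ∧ ∀ e ∈ F, e.image f ∈ H

/-- The Turán number `ex₃(n, F)`. -/
noncomputable def ex3 {W : Type} (n : ℕ) (F : Set (Finset W)) : ℕ :=
  sSup {m | ∃ H : Finset (Finset (Fin n)), (∀ e ∈ H, e.card = 3) ∧ ¬ HasCopy F H ∧ H.card = m}

variable {n : ℕ}

/-- cleaning, with the sharper constant -/
lemma clean2 (H : Finset (Finset (Fin n))) (D : ℕ) :
    ∃ H' ⊆ H, 2 * H.card ≤ 2 * H'.card + D * n ^ 2 ∧
      ∀ x y, Sh H' x y → D ≤ (H'.filter (fun e => x ∈ e ∧ y ∈ e)).card := by
  obtain ⟨H', hmem, hmax⟩ := Finset.exists_max_image H.powerset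
    (fun K => 2 * (K.card : ℤ) - D * (shp K).card) ⟨H, mem_powerset_self H⟩
  refine ⟨H', mem_powerset.mp hmem, ?_, ?_⟩
  · have h1 := hmax H (mem_powerset_self H)
    have h2 := shp_card H
    have h3 : 2 * (H.card : ℤ) ≤ 2 * H'.card + D * n ^ 2 := by
      have h4 : ((shp H).card : ℤ) ≤ n ^ 2 := by exact_mod_cast h2
      have h5 : (D : ℤ) * (shp H).card ≤ D * n ^ 2 := by
        apply mul_le_mul_of_nonneg_left h4 (by positivity)
      have h6 : (0 : ℤ) ≤ D * (shp H').card := by positivity
      linarith
    exact_mod_cast h3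
  · intro x y hxy
    by_contra hlt
    push Not at hlt
    set K := H'.filter (fun e => ¬ (x ∈ e ∧ y ∈ e)) with hK
    have hKH : K ∈ H.powerset := by
      rw [mem_powerset]
      exact (filter_subset _ _).trans (mem_powerset.mp hmem)
    have h1 := hmax K hKH
    have h2 : (H'.filter (fun e => x ∈ e ∧ y ∈ e)).card + K.card = H'.card :=
      Finset.card_filter_add_card_filter_not (s := H') (fun e => x ∈ e ∧ y ∈ e)
    have h3 : shp K ⊆ ((shp H').erase (x, y)).erase (y, x) := by
      intro p hp
      simp only [shp, mem_filter, mem_univ, true_and] at hp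
      obtain ⟨hne, e, he, hpe1, hpe2⟩ := hp
      rw [hK, mem_filter] at he
      rw [mem_erase, mem_erase]
      refine ⟨?_, ?_, ?_⟩
      · rintro rfl
        exact he.2 ⟨hpe2, hpe1⟩
      · rintro rfl
        exact he.2 ⟨hpe1, hpe2⟩
      · simp only [shp, mem_filter, mem_univ, true_and]
        exact ⟨hne, e, he.1, hpe1, hpe2⟩
    have h4 : (x, y) ∈ shp H' := by
      simp only [shp, mem_filter, mem_univ, true_and]
      exact hxy
    have h4' : (y, x) ∈ (shp H').erase (x, y) := by
      rw [mem_erase]
      refine ⟨?_, ?_⟩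
      · intro h
        rw [Prod.mk.injEq] at h
        exact hxy.1 h.2
      · simp only [shp, mem_filter, mem_univ, true_and]
        exact hxy.symm
    have h5 : (shp K).card + 2 ≤ (shp H').card := by
      have h6 := card_le_card h3
      rw [card_erase_of_mem h4', card_erase_of_mem h4] at h6
      have h7 : 0 < (shp H').card := card_pos.mpr ⟨_, h4⟩
      have h8 : 0 < ((shp H').erase (x, y)).card := card_pos.mpr ⟨_, h4'⟩
      rw [card_erase_of_mem h4] at h8
      omega
    have h8 : (D : ℤ) * ((shp K).card + 2) ≤ D * (shp H').card := by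
      apply mul_le_mul_of_nonneg_left _ (by positivity)
      exact_mod_cast h5
    have h9 : (H'.card : ℤ) < K.card + D := by
      have : H'.card < K.card + D := by omega
      exact_mod_cast this
    linarith

lemma six_le_T {H : Finset (Finset (Fin n))} (h3 : ∀ e ∈ H, e.card = 3) :
    6 * H.card ≤ (T H).card := by
  have hmap : ∀ p ∈ (T H).filter (fun p => ({p.1, p.2.1, p.2.2} : Finset (Fin n)) ∈ H),
      ({p.1, p.2.1, p.2.2} : Finset (Fin n)) ∈ H := fun p hp => (mem_filter.mp hp).2
  have h1 := Finset.card_eq_sum_card_fiberwise hmap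
  have h2 : ∀ e ∈ H, 6 ≤ (((T H).filter (fun p => ({p.1, p.2.1, p.2.2} : Finset (Fin n)) ∈ H)).filter
      (fun p => ({p.1, p.2.1, p.2.2} : Finset (Fin n)) = e)).card := by
    intro e he
    obtain ⟨x, y, z, hxy, hxz, hyz, rfl⟩ := card_eq_three.mp (h3 e he)
    have hsub : ({(x, y, z), (x, z, y), (y, x, z), (y, z, x), (z, x, y), (z, y, x)} :
        Finset (Fin n × Fin n × Fin n)) ⊆
        ((T H).filter (fun p => ({p.1, p.2.1, p.2.2} : Finset (Fin n)) ∈ H)).filter
          (fun p => ({p.1, p.2.1, p.2.2} : Finset (Fin n)) = {x, y, z}) := by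
      have hs : ∀ a b c : Fin n, ({a, b, c} : Finset (Fin n)) = {x, y, z} → a ≠ b → a ≠ c → b ≠ c →
          (a, b, c) ∈ ((T H).filter (fun p => ({p.1, p.2.1, p.2.2} : Finset (Fin n)) ∈ H)).filter
          (fun p => ({p.1, p.2.1, p.2.2} : Finset (Fin n)) = {x, y, z}) := by
        intro a b c habc hab hac hbc
        rw [mem_filter, mem_filter]
        refine ⟨⟨?_, ?_⟩, habc⟩
        · simp only [T, mem_filter, mem_univ, true_and]
          rw [← habc] at he
          refine ⟨⟨hab, _, he, by simp, by simp⟩, ⟨hac, _, he, by simp, by simp⟩,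
            ⟨hbc, _, he, by simp, by simp⟩⟩
        · simp only
          rw [habc]; exact he
      intro p hp
      simp only [mem_insert, mem_singleton] at hp
      rcases hp with rfl | rfl | rfl | rfl | rfl | rfl
      · exact hs _ _ _ rfl hxy hxz hyz
      · exact hs _ _ _ (by ext w; simp only [mem_insert, mem_singleton]; tauto) hxz hxy hyz.symm
      · exact hs _ _ _ (by ext w; simp only [mem_insert, mem_singleton]; tauto) hxy.symm hyz hxz
      · exact hs _ _ _ (by ext w; simp only [mem_insert, mem_singleton]; tauto) hyz hxy.symm hxz.symm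
      · exact hs _ _ _ (by ext w; simp only [mem_insert, mem_singleton]; tauto) hxz.symm hyz.symm hxy
      · exact hs _ _ _ (by ext w; simp only [mem_insert, mem_singleton]; tauto) hyz.symm hxz.symm hxy.symm
    refine le_trans (le_of_eq ?_) (card_le_card hsub)
    rw [card_insert_of_notMem, card_insert_of_notMem, card_insert_of_notMem, card_insert_of_notMem,
      card_insert_of_notMem, card_singleton]
    all_goals simp [hxy, hxz, hyz, hxy.symm, hxz.symm, hyz.symm]
  calc 6 * H.card = ∑ e ∈ H, 6 := by rw [sum_const, smul_eq_mul, mul_comm]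
    _ ≤ ∑ e ∈ H, _ := sum_le_sum h2
    _ = _ := h1.symm
    _ ≤ _ := card_filter_le _ _

lemma case2' (H : Finset (Finset (Fin n))) (t : ℕ) (ht : 0 < t)
    (hc : ∀ x y, Sh H x y → t + 1 ≤ (cn H x y).card)
    (h : ∀ v c : Fin n, Sh H v c → ∀ p q : Fin n, p ≠ q → p ∈ cn H v c → q ∈ cn H v c →
      (cn H p q).card ≤ t) :
    (T H).card ≤ t * n ^ 2 := by
  have h1 : ∀ v, ∀ x ∈ N H v, t * (cn H v x).card ≤ ∑ p : Fin n × Fin n,
      if p.1 ≠ p.2 ∧ p.1 ∈ cn H v x ∧ p.2 ∈ cn H v x then 1 else 0 := by
    intro v x hx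
    rw [← card_filter]
    have : (univ.filter (fun p : Fin n × Fin n => p.1 ≠ p.2 ∧ p.1 ∈ cn H v x ∧ p.2 ∈ cn H v x)) =
        (cn H v x).offDiag := by
      ext ⟨p, q⟩
      simp only [mem_filter, mem_univ, true_and, mem_offDiag]
      tauto
    rw [this, offDiag_card]
    have hk := hc v x (mem_N.mp hx)
    generalize (cn H v x).card = k at hk
    rcases k with _ | k
    · omega
    · have : (k + 1) * (k + 1) - (k + 1) = k * (k + 1) := by
        rw [add_mul, one_mul, Nat.add_sub_cancel]
      rw [this]
      exact Nat.mul_le_mul_right _ (by omega)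
  have h2 : t * ∑ v, ∑ x ∈ N H v, (cn H v x).card ≤ ∑ v, ∑ x ∈ N H v, (∑ p : Fin n × Fin n,
      if p.1 ≠ p.2 ∧ p.1 ∈ cn H v x ∧ p.2 ∈ cn H v x then 1 else 0) := by
    rw [mul_sum]
    refine sum_le_sum fun v _ => ?_
    rw [mul_sum]
    exact sum_le_sum (h1 v)
  have h3 : ∑ v, ∑ x ∈ N H v, (∑ p : Fin n × Fin n,
      if p.1 ≠ p.2 ∧ p.1 ∈ cn H v x ∧ p.2 ∈ cn H v x then 1 else 0) =
      ∑ p : Fin n × Fin n, ∑ v, ∑ x ∈ N H v,
        if p.1 ≠ p.2 ∧ p.1 ∈ cn H v x ∧ p.2 ∈ cn H v x then 1 else 0 := by
    rw [sum_comm]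
    apply sum_congr rfl
    intro v _
    rw [sum_comm]
  have h4 : ∀ p ∈ (univ : Finset (Fin n × Fin n)), (∑ v, ∑ x ∈ N H v,
        if p.1 ≠ p.2 ∧ p.1 ∈ cn H v x ∧ p.2 ∈ cn H v x then 1 else 0) ≤ t ^ 2 := by
    rintro ⟨p, q⟩ -
    simp only
    by_cases hex : ∃ v x, x ∈ N H v ∧ p ≠ q ∧ p ∈ cn H v x ∧ q ∈ cn H v x
    · obtain ⟨v0, x0, hx0, hpq, hp0, hq0⟩ := hex
      have hc := h v0 x0 (mem_N.mp hx0) p q hpq hp0 hq0
      calc (∑ v, ∑ x ∈ N H v, if p ≠ q ∧ p ∈ cn H v x ∧ q ∈ cn H v x then 1 else 0)
          ≤ ∑ v, ∑ x, (if v ∈ cn H p q ∧ x ∈ cn H p q then 1 else 0) := by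
            apply sum_le_sum
            intro v _
            refine (sum_le_sum ?_).trans (sum_le_sum_of_subset (subset_univ (N H v)))
            intro x _
            split_ifs with h1 h2 h2
            · exact le_refl _
            · exfalso
              apply h2
              have hp := mem_cn.mp h1.2.1
              have hq := mem_cn.mp h1.2.2
              exact ⟨mem_cn.mpr ⟨hp.1.symm, hq.1.symm⟩, mem_cn.mpr ⟨hp.2.symm, hq.2.symm⟩⟩
            · exact Nat.zero_le _
            · exact le_refl _
        _ = (cn H p q).card * (cn H p q).card := by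
            rw [← Fintype.sum_prod_type']
            rw [← card_filter, ← card_product]
            congr 1
            ext ⟨a, b⟩
            simp
        _ ≤ t ^ 2 := by rw [sq]; exact Nat.mul_le_mul hc hc
    · have : ∀ v, ∀ x ∈ N H v, (if p ≠ q ∧ p ∈ cn H v x ∧ q ∈ cn H v x then 1 else 0) = 0 := by
        intro v x hx
        rw [if_neg]
        intro hh
        exact hex ⟨v, x, hx, hh⟩
      rw [sum_congr rfl (fun v _ => sum_congr rfl (this v))]
      simp
  have h5 : t * (T H).card ≤ t * (t * n ^ 2) := by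
    calc t * (T H).card ≤ t * ∑ v, ∑ x ∈ N H v, (cn H v x).card := Nat.mul_le_mul_left _ (T_le H)
      _ ≤ _ := h2
      _ = _ := h3
      _ ≤ ∑ _p : Fin n × Fin n, t ^ 2 := sum_le_sum h4
      _ = t * (t * n ^ 2) := by
        rw [sum_const, card_univ, Fintype.card_prod, Fintype.card_fin, smul_eq_mul]; ring
  exact Nat.le_of_mul_le_mul_left h5 ht

/-- the crosscut condition in terms of the vertex part and the edge part -/
lemma crosscut_cases {V : Type} {G : SimpleGraph V} {X : Finset (V ⊕ G.edgeSet)}
    (hX : IsCrosscut (expansion G) X) (u v : V) (h : G.Adj u v) :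
    (Sum.inl u ∈ X ∧ Sum.inl v ∉ X ∧ Sum.inr ⟨s(u, v), (SimpleGraph.mem_edgeSet G).mpr h⟩ ∉ X) ∨
    (Sum.inl u ∉ X ∧ Sum.inl v ∈ X ∧ Sum.inr ⟨s(u, v), (SimpleGraph.mem_edgeSet G).mpr h⟩ ∉ X) ∨
    (Sum.inl u ∉ X ∧ Sum.inl v ∉ X ∧ Sum.inr ⟨s(u, v), (SimpleGraph.mem_edgeSet G).mpr h⟩ ∈ X) := by
  have h1 := hX _ ⟨u, v, h, rfl⟩
  have hne : (Sum.inl u : V ⊕ G.edgeSet) ≠ Sum.inl v := fun h' => h.ne (Sum.inl_injective h')
  set w : V ⊕ G.edgeSet := Sum.inr ⟨s(u, v), (SimpleGraph.mem_edgeSet G).mpr h⟩ with hw
  have hne2 : (Sum.inl u : V ⊕ G.edgeSet) ≠ w := by simp [hw]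
  have hne3 : (Sum.inl v : V ⊕ G.edgeSet) ≠ w := by simp [hw]
  rw [card_eq_one] at h1
  obtain ⟨a, ha⟩ := h1
  have hmem : ∀ z : V ⊕ G.edgeSet, (z = Sum.inl u ∨ z = Sum.inl v ∨ z = w) ∧ z ∈ X ↔ z = a := by
    intro z
    have := Finset.ext_iff.mp ha z
    simpa only [mem_inter, mem_insert, mem_singleton] using this
  have ha' := (hmem a).mpr rfl
  rcases ha'.1 with h2 | h2 | h2
  · left
    refine ⟨h2 ▸ ha'.2, fun h3 => ?_, fun h3 => ?_⟩
    · have := (hmem (Sum.inl v)).mp ⟨by simp, h3⟩
      exact hne (h2.symm.trans this.symm)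
    · have := (hmem w).mp ⟨by simp, h3⟩
      exact hne2 (h2.symm.trans this.symm)
  · right; left
    refine ⟨fun h3 => ?_, h2 ▸ ha'.2, fun h3 => ?_⟩
    · have := (hmem (Sum.inl u)).mp ⟨by simp, h3⟩
      exact hne (this.trans h2)
    · have := (hmem w).mp ⟨by simp, h3⟩
      exact hne3 (h2.symm.trans this.symm)
  · right; right
    refine ⟨fun h3 => ?_, fun h3 => ?_, h2 ▸ ha'.2⟩
    · have := (hmem (Sum.inl u)).mp ⟨by simp, h3⟩
      exact hne2 (this.trans h2)
    · have := (hmem (Sum.inl v)).mp ⟨by simp, h3⟩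
      exact hne3 (this.trans h2)

/-- a graph copy in the shadow of a cleaned 3-graph gives a copy of the expansion -/
lemma hasCopy_of_shadow {V : Type} [Fintype V] (G : SimpleGraph V) {H : Finset (Finset (Fin n))}
    (h3 : ∀ e ∈ H, e.card = 3)
    (hD : ∀ x y, Sh H x y → Fintype.card V + Fintype.card G.edgeSet ≤
      (H.filter (fun e => x ∈ e ∧ y ∈ e)).card)
    (f : V → Fin n) (hf : Function.Injective f) (hadj : ∀ u v, G.Adj u v → Sh H (f u) (f v)) :
    HasCopy (expansion G) H := by
  obtain ⟨g, hg1, hg2, hg3⟩ := embed G h3 hD f hadj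
  refine ⟨Sum.elim f g, ?_, ?_⟩
  · intro a b hab
    rcases a with a | a <;> rcases b with b | b
    · simp only [Sum.elim_inl] at hab; rw [hf hab]
    · simp only [Sum.elim_inl, Sum.elim_inr] at hab
      exact absurd hab.symm (hg2 b a)
    · simp only [Sum.elim_inl, Sum.elim_inr] at hab
      exact absurd hab (hg2 a b)
    · simp only [Sum.elim_inr] at hab; rw [hg1 hab]
  · rintro e ⟨u, v, h, rfl⟩
    have := hg3 u v h
    simpa only [image_insert, image_singleton, Sum.elim_inl, Sum.elim_inr] using this

/-- the upper bound -/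
lemma upper {V : Type} [Fintype V] (G : SimpleGraph V) (X : Finset (V ⊕ G.edgeSet))
    (hX : IsCrosscut (expansion G) X) (hX3 : X.card = 3) (H : Finset (Finset (Fin n)))
    (hH3 : ∀ e ∈ H, e.card = 3) (hno : ¬ HasCopy (expansion G) H) :
    H.card ≤ (Fintype.card V + Fintype.card G.edgeSet) * n ^ 2 := by
  set t := Fintype.card V with ht
  set D := t + Fintype.card G.edgeSet with hDdef
  obtain ⟨H', hsub, hle, hcod⟩ := clean2 H D
  have hH'3 : ∀ e ∈ H', e.card = 3 := fun e he => hH3 e (hsub he)
  have hnoemb : ∀ f : V → Fin n, Function.Injective f →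
      (∀ u v, G.Adj u v → Sh H' (f u) (f v)) → False := by
    intro f hf hadj
    obtain ⟨g, hg1, hg2⟩ := hasCopy_of_shadow G hH'3 hcod f hf hadj
    exact hno ⟨g, hg1, fun e he => hsub (hg2 e he)⟩
  have hcn' : ∀ x y, Sh H' x y → D ≤ (cn H' x y).card := by
    intro x y h
    exact (hcod x y h).trans ((third hH'3 h.1).trans (card_le_card third_sub_cn))
  have hcn : ∀ x y, Sh H' x y → Fintype.card V ≤ (cn H' x y).card := by
    intro x y h
    refine le_trans ?_ (hcn' x y h)
    rw [hDdef, ht]; exact Nat.le_add_right _ _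
  have h6 := six_le_T hH'3
  set I := X.toLeft with hI
  set J := X.toRight with hJ
  have hIJ : I.card + J.card = 3 := by rw [hI, hJ, card_toLeft_add_card_toRight, hX3]
  have hedge : ∀ (u v : V) (h : G.Adj u v),
      (u ∈ I ∧ v ∉ I ∧ (⟨s(u, v), (SimpleGraph.mem_edgeSet G).mpr h⟩ : G.edgeSet) ∉ J) ∨
      (u ∉ I ∧ v ∈ I ∧ (⟨s(u, v), (SimpleGraph.mem_edgeSet G).mpr h⟩ : G.edgeSet) ∉ J) ∨
      (u ∉ I ∧ v ∉ I ∧ (⟨s(u, v), (SimpleGraph.mem_edgeSet G).mpr h⟩ : G.edgeSet) ∈ J) := by
    intro u v h
    have := crosscut_cases hX u v h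
    simpa only [hI, hJ, mem_toLeft, mem_toRight] using this
  by_cases hI1 : I.card ≤ 1
  · -- dominated case: the cleaned hypergraph is empty
    have hJ0 : ∃ v0 : V, ∃ J' : Finset G.edgeSet, J'.card ≤ 2 ∧
        ∀ (u v : V) (h : G.Adj u v), u ≠ v0 → v ≠ v0 →
          (⟨s(u, v), (SimpleGraph.mem_edgeSet G).mpr h⟩ : G.edgeSet) ∈ J' := by
      rcases Nat.le_one_iff_eq_zero_or_eq_one.mp hI1 with h0 | h1
      · have hI0 : I = ∅ := card_eq_zero.mp h0
        have hJ3 : J.card = 3 := by omega
        have hJne : J.Nonempty := by rw [← card_pos]; omega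
        obtain ⟨e1, he1⟩ := hJne
        obtain ⟨v0, hv0⟩ : ∃ v0, v0 ∈ (e1 : Sym2 V) := by
          obtain ⟨e, he⟩ := e1
          induction e using Sym2.ind with
          | _ a b => exact ⟨a, by simp⟩
        refine ⟨v0, J.erase e1, ?_, ?_⟩
        · rw [card_erase_of_mem he1]; omega
        · intro u v h hu hv
          rw [mem_erase]
          constructor
          · rintro rfl
            simp only [Sym2.mem_iff] at hv0
            rcases hv0 with rfl | rfl
            · exact hu rfl
            · exact hv rfl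
          · rcases hedge u v h with h' | h' | h'
            · rw [hI0] at h'; simp at h'
            · rw [hI0] at h'; simp at h'
            · exact h'.2.2
      · obtain ⟨v0, hv0⟩ := card_eq_one.mp h1
        refine ⟨v0, J, by omega, ?_⟩
        intro u v h hu hv
        rcases hedge u v h with h' | h' | h'
        · rw [hv0] at h'; simp [hu] at h'
        · rw [hv0] at h'; simp [hv] at h'
        · exact h'.2.2
    obtain ⟨v0, J', hJ', hcov⟩ := hJ0
    obtain ⟨p, hp⟩ := find_p G v0 J' hJ' hcov
    have hemp : H' = ∅ := by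
      by_contra hne
      obtain ⟨e, he⟩ := Finset.nonempty_iff_ne_empty.mpr hne
      obtain ⟨x, y, z, hxy, -, -, rfl⟩ := card_eq_three.mp (hH'3 e he)
      obtain ⟨f, hf, hadj⟩ := case1 G H' hcn x y ⟨hxy, _, he, by simp, by simp⟩ v0 p hp
      exact hnoemb f hf hadj
    rw [hemp, card_empty] at hle
    nlinarith
  · by_cases hI2 : I.card = 2
    · have hJ1 : J.card = 1 := by omega
      obtain ⟨a, b, hab, hIab⟩ := card_eq_two.mp hI2
      obtain ⟨e0, he0⟩ := card_eq_one.mp hJ1
      have hE : 0 < Fintype.card G.edgeSet := Fintype.card_pos_iff.mpr ⟨e0⟩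
      have htpos : 0 < t := Fintype.card_pos_iff.mpr ⟨a⟩
      obtain ⟨e, he⟩ := e0
      induction e using Sym2.ind with
      | _ c d =>
        have hcd : G.Adj c d := (SimpleGraph.mem_edgeSet G).mp he
        have hcdI : c ∉ I ∧ d ∉ I := by
          rcases hedge c d hcd with h' | h' | h'
          · exfalso; apply h'.2.2; rw [he0]; exact mem_singleton_self _
          · exfalso; apply h'.2.2; rw [he0]; exact mem_singleton_self _
          · exact ⟨h'.1, h'.2.1⟩
        have hca : c ≠ a := by rintro rfl; apply hcdI.1; rw [hIab]; simp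
        have hcb : c ≠ b := by rintro rfl; apply hcdI.1; rw [hIab]; simp
        have hda : d ≠ a := by rintro rfl; apply hcdI.2; rw [hIab]; simp
        have hdb : d ≠ b := by rintro rfl; apply hcdI.2; rw [hIab]; simp
        have hT : (T H').card ≤ t * n ^ 2 := by
          apply case2' H' t htpos (fun x y hxy => le_trans (by omega) (hcn' x y hxy))
          intro v w hvw x y hxy hx hy
          by_contra hlt
          push Not at hlt
          have hx' := mem_cn.mp hx
          have hy' := mem_cn.mp hy
          obtain ⟨f, hf, hf1, hf2⟩ := extend ({a, b, c, d} : Finset V)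
            (fun u => if u = a then x else if u = b then y else if u = c then v else w) (by
              intro i hi j hj hij
              simp only [coe_insert, coe_singleton, Set.mem_insert_iff, Set.mem_singleton_iff] at hi hj
              have e1 : x ≠ v := hx'.1.1.symm
              have e2 : x ≠ w := hx'.2.1.symm
              have e3 : y ≠ v := hy'.1.1.symm
              have e4 : y ≠ w := hy'.2.1.symm
              have e5 : v ≠ w := hvw.1
              have e6 := hcd.ne
              clear hlt hx hy hx' hy' hnoemb hcn hcn' hcod hedge hle h6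
              rcases hi with rfl | rfl | rfl | rfl <;> rcases hj with rfl | rfl | rfl | rfl <;>
                simp_all [eq_comm]) (cn H' x y) (le_of_lt hlt)
          have fa : f a = x := by rw [hf1 a (by simp)]; simp
          have fb : f b = y := by rw [hf1 b (by simp)]; simp [hab.symm]
          have fc : f c = v := by rw [hf1 c (by simp)]; simp [hca, hcb]
          have fd : f d = w := by rw [hf1 d (by simp)]; simp [hda, hdb, hcd.ne.symm]
          have key : ∀ u v', u ∈ I → v' ∉ I → Sh H' (f u) (f v') := by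
            intro u v' hu hv'
            have hxc : Sh H' x (f v') ∧ Sh H' y (f v') := by
              by_cases hc : v' = c
              · rw [hc, fc]; exact ⟨hx'.1.symm, hy'.1.symm⟩
              · by_cases hd : v' = d
                · rw [hd, fd]; exact ⟨hx'.2.symm, hy'.2.symm⟩
                · have hv'2 : v' ∉ ({a, b, c, d} : Finset V) := by
                    rw [hIab] at hv'
                    simp only [mem_insert, mem_singleton, not_or] at hv' ⊢
                    exact ⟨hv'.1, hv'.2, hc, hd⟩
                  exact mem_cn.mp (hf2 v' hv'2)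
            rw [hIab] at hu
            simp only [mem_insert, mem_singleton] at hu
            rcases hu with rfl | rfl
            · rw [fa]; exact hxc.1
            · rw [fb]; exact hxc.2
          apply hnoemb f hf
          intro u v' huv
          rcases hedge u v' huv with h' | h' | h'
          · exact key u v' h'.1 h'.2.1
          · exact (key v' u h'.2.1 h'.1).symm
          · have h3 := h'.2.2
            rw [he0, mem_singleton] at h3
            simp only [Subtype.mk.injEq, Sym2.eq_iff] at h3
            rcases h3 with ⟨rfl, rfl⟩ | ⟨rfl, rfl⟩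
            · rw [fc, fd]; exact hvw
            · rw [fc, fd]; exact hvw.symm
        have htD : t * n ^ 2 ≤ D * n ^ 2 := Nat.mul_le_mul_right _ (Nat.le_add_right _ _)
        nlinarith
    · have hI3 : I.card = 3 := by omega
      have hJ0 : J = ∅ := by rw [← card_eq_zero]; omega
      obtain ⟨a, b, c, hab, hac, hbc, hIabc⟩ := card_eq_three.mp hI3
      have hT : (T H').card ≤ (t + 3) * n ^ 2 := by
        apply case3
        intro x y z hxy hxz hyz
        by_contra hlt
        push Not at hlt
        obtain ⟨f, hf, hf1, hf2⟩ := extend ({a, b, c} : Finset V)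
          (fun u => if u = a then x else if u = b then y else z) (by
            intro i hi j hj hij
            simp only [coe_insert, coe_singleton, Set.mem_insert_iff, Set.mem_singleton_iff] at hi hj
            clear hlt hnoemb hcn hcn' hcod hedge hle h6
            rcases hi with rfl | rfl | rfl <;> rcases hj with rfl | rfl | rfl <;>
              simp_all [eq_comm]) _ (le_of_lt hlt)
        have fa : f a = x := by rw [hf1 a (by simp)]; simp
        have fb : f b = y := by rw [hf1 b (by simp)]; simp [hab.symm]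
        have fc : f c = z := by rw [hf1 c (by simp)]; simp [hac.symm, hbc.symm]
        have key : ∀ u v', u ∈ I → v' ∉ I → Sh H' (f u) (f v') := by
          intro u v' hu hv'
          rw [hIabc] at hv' hu
          have h2 := hf2 v' hv'
          rw [mem_filter] at h2
          simp only [mem_insert, mem_singleton] at hu
          rcases hu with rfl | rfl | rfl
          · rw [fa]; exact h2.2.1
          · rw [fb]; exact h2.2.2.1
          · rw [fc]; exact h2.2.2.2
        apply hnoemb f hf
        intro u v' huv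
        rcases hedge u v' huv with h' | h' | h'
        · exact key u v' h'.1 h'.2.1
        · exact (key v' u h'.2.1 h'.1).symm
        · have h3 := h'.2.2
          rw [hJ0] at h3
          simp at h3
      have ht3 : 3 ≤ t := by
        rw [← hI3]; exact card_le_univ I
      have htD : (t + 3) * n ^ 2 ≤ 2 * D * n ^ 2 := Nat.mul_le_mul_right _ (by omega)
      nlinarith

/-- the extremal construction: triples meeting a fixed pair in exactly one vertex -/
noncomputable def star (n : ℕ) (P : Finset (Fin n)) : Finset (Finset (Fin n)) :=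
  (powersetCard 3 univ).filter (fun e => (e ∩ P).card = 1)

lemma star_card {P : Finset (Fin n)} (hP : P.card = 2) : (n - 2) * (n - 3) ≤ (star n P).card := by
  have hinj : Set.InjOn (fun q : Fin n × Finset (Fin n) => insert q.1 q.2)
      ((P ×ˢ (powersetCard 2 Pᶜ) : Finset (Fin n × Finset (Fin n))) : Set (Fin n × Finset (Fin n))) := by
    rintro ⟨a, A⟩ ha ⟨b, B⟩ hb hab
    simp only [coe_product, Set.mem_prod, mem_coe, mem_powersetCard] at ha hb hab
    have haB : a ∉ B := fun h => (mem_compl.mp (hb.2.1 h)) ha.1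
    have haA : a ∉ A := fun h => (mem_compl.mp (ha.2.1 h)) ha.1
    have hbA : b ∉ A := fun h => (mem_compl.mp (ha.2.1 h)) hb.1
    have hbB : b ∉ B := fun h => (mem_compl.mp (hb.2.1 h)) hb.1
    have hab' : a = b := by
      have : a ∈ insert b B := by rw [← hab]; exact mem_insert_self _ _
      rcases mem_insert.mp this with h | h
      · exact h
      · exact absurd h haB
    subst hab'
    have : A = B := by
      rw [← erase_insert haA, ← erase_insert haB, hab]
    rw [this]
  have hsub : (P ×ˢ (powersetCard 2 Pᶜ)).image (fun q : Fin n × Finset (Fin n) => insert q.1 q.2) ⊆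
      star n P := by
    intro e he
    rw [mem_image] at he
    obtain ⟨⟨a, A⟩, ha, rfl⟩ := he
    rw [mem_product, mem_powersetCard] at ha
    have haA : a ∉ A := fun h => (mem_compl.mp (ha.2.1 h)) ha.1
    simp only [star, mem_filter, mem_powersetCard, subset_univ, true_and]
    refine ⟨?_, ?_⟩
    · rw [card_insert_of_notMem haA, ha.2.2]
    · have : insert a A ∩ P = {a} := by
        ext z
        simp only [mem_inter, mem_insert, mem_singleton]
        constructor
        · rintro ⟨h1 | h1, h2⟩
          · exact h1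
          · exact absurd h2 (mem_compl.mp (ha.2.1 h1))
        · rintro rfl
          exact ⟨Or.inl rfl, ha.1⟩
      rw [this, card_singleton]
  have h1 := card_le_card hsub
  rw [card_image_of_injOn hinj, card_product, hP, card_powersetCard, card_compl, hP,
    Fintype.card_fin] at h1
  refine le_trans (le_of_eq ?_) h1
  have h2 := Nat.choose_two_right (n - 2)
  have h3 := Nat.even_mul_pred_self (n - 2)
  have h4 : n - 2 - 1 = n - 3 := by omega
  rw [h4] at h2 h3
  rw [h2]
  exact (Nat.mul_div_cancel' h3.two_dvd).symm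

lemma sigma_le {W : Type} {F : Set (Finset W)} {X : Finset W} (hX : IsCrosscut F X) :
    sigma F ≤ X.card := Nat.sInf_le ⟨X, hX, rfl⟩

/-- a copy inside the star gives a small crosscut -/
lemma star_free {W : Type} [Fintype W] {F : Set (Finset W)} {P : Finset (Fin n)}
    (hF : P.card < sigma F) : ¬ HasCopy F (star n P) := by
  rintro ⟨f, hf, hF'⟩
  have hX : IsCrosscut F (univ.filter (fun w => f w ∈ P)) := by
    intro e he
    have h1 := hF' e he
    simp only [star, mem_filter] at h1
    have h2 : (e ∩ univ.filter (fun w => f w ∈ P)).image f = e.image f ∩ P := by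
      ext z
      simp only [mem_image, mem_inter, mem_filter, mem_univ, true_and]
      constructor
      · rintro ⟨w, ⟨h3, h4⟩, rfl⟩
        exact ⟨⟨w, h3, rfl⟩, h4⟩
      · rintro ⟨⟨w, h3, rfl⟩, h4⟩
        exact ⟨w, ⟨h3, h4⟩, rfl⟩
    rw [← card_image_of_injective _ hf, h2]
    exact h1.2
  have h1 := sigma_le hX
  have h2 : (univ.filter (fun w => f w ∈ P)).card ≤ P.card := by
    rw [← card_image_of_injective _ hf]
    apply card_le_card
    intro z hz
    rw [mem_image] at hz
    obtain ⟨w, hw, rfl⟩ := hz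
    exact (mem_filter.mp hw).2
  omega

lemma le_ex3 {W : Type} {F : Set (Finset W)} {H : Finset (Finset (Fin n))}
    (h3 : ∀ e ∈ H, e.card = 3) (hno : ¬ HasCopy F H) : H.card ≤ ex3 n F := by
  refine le_csSup ⟨(univ : Finset (Finset (Fin n))).card, ?_⟩ ⟨H, h3, hno, rfl⟩
  rintro m ⟨K, -, -, rfl⟩
  exact card_le_univ K

lemma ex3_le {W : Type} {F : Set (Finset W)} {B : ℕ}
    (h : ∀ H : Finset (Finset (Fin n)), (∀ e ∈ H, e.card = 3) → ¬ HasCopy F H → H.card ≤ B) :
    ex3 n F ≤ B := by
  apply csSup_le'
  rintro m ⟨K, h3, hno, rfl⟩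
  exact h K h3 hno

/-- **The order of magnitude of the Turán number of expansions with crosscut number three.**
For every finite graph `G` whose 3-uniform expansion has crosscut number 3, the Turán number
`ex₃(n, G⁺)` lies between `(n - 2)(n - 3)` and `(|V(G)| + |E(G)|) n²` for every `n`; in particular
its order of magnitude is `n²`. -/
theorem result (V : Type) [Fintype V] (G : SimpleGraph V) (hG : sigma (expansion G) = 3) :
    (∀ n : ℕ, (n - 2) * (n - 3) ≤ ex3 n (expansion G) ∧
      ex3 n (expansion G) ≤ (Fintype.card V + G.edgeSet.ncard) * n ^ 2) ∧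
    (fun n : ℕ => (ex3 n (expansion G) : ℝ)) =Θ[Filter.atTop] (fun n : ℕ => (n : ℝ) ^ 2) := by
  have hne : {k | ∃ X : Finset (V ⊕ G.edgeSet), IsCrosscut (expansion G) X ∧ X.card = k}.Nonempty := by
    by_contra h
    rw [Set.not_nonempty_iff_eq_empty] at h
    rw [sigma, h, Nat.sInf_empty] at hG
    omega
  obtain ⟨X, hX, hXc⟩ := Nat.sInf_mem hne
  have hX3 : X.card = 3 := by rw [hXc]; exact hG
  have hcard : G.edgeSet.ncard = Fintype.card G.edgeSet := by
    rw [Set.ncard_eq_toFinset_card', Set.toFinset_card]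
  have main : ∀ n : ℕ, (n - 2) * (n - 3) ≤ ex3 n (expansion G) ∧
      ex3 n (expansion G) ≤ (Fintype.card V + G.edgeSet.ncard) * n ^ 2 := by
    intro n
    constructor
    · rcases Nat.lt_or_ge n 2 with hn | hn
      · have : n - 2 = 0 := by omega
        rw [this, Nat.zero_mul]; exact Nat.zero_le _
      · obtain ⟨P, -, hP⟩ := exists_subset_card_eq (s := (univ : Finset (Fin n))) (n := 2) (by simpa using hn)
        refine (star_card hP).trans (le_ex3 (fun e he => ?_) (star_free (by omega)))
        simp only [star, mem_filter, mem_powersetCard] at he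
        exact he.1.2
    · rw [hcard]
      exact ex3_le (fun H h3 hno => upper G X hX hX3 H h3 hno)
  refine ⟨main, ?_, ?_⟩
  · apply Asymptotics.IsBigO.of_bound ((Fintype.card V + G.edgeSet.ncard : ℕ) : ℝ)
    filter_upwards with n
    rw [Real.norm_of_nonneg (by positivity), Real.norm_of_nonneg (by positivity)]
    exact_mod_cast (main n).2
  · apply Asymptotics.IsBigO.of_bound 3
    filter_upwards [Filter.eventually_ge_atTop 6] with n hn
    rw [Real.norm_of_nonneg (by positivity), Real.norm_of_nonneg (by positivity)]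
    have h1 := (main n).1
    obtain ⟨k, rfl⟩ : ∃ k, n = k + 6 := ⟨n - 6, by omega⟩
    have h2 : (k + 6) ^ 2 ≤ 3 * ex3 (k + 6) (expansion G) := by
      have h3 : k + 6 - 2 = k + 4 := by omega
      have h4 : k + 6 - 3 = k + 3 := by omega
      rw [h3, h4] at h1
      nlinarith
    exact_mod_cast h2

end Pool.Agent.Results.MP_e3cf1a_co.QuadraticOrder
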